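import Mathlib

/-!
A horseshoe for every continuous third order recurrence which is uniformly close, on `[0,2]^3`,
to the piecewise linear recurrence `p' = min 1 r - min (p - 22/25) q`.
-/

namespace Pool.Agent.R195.HS

open Filter Topology Set

theorem subinterval (f : ℝ → ℝ) (s t l r : ℝ) (hst : s ≤ t) (hf : ContinuousOn f (Icc s t))
    (hl : f s ≤ l) (hr : r ≤ f t) (hlr : l ≤ r) :
    ∃ s' t', s ≤ s' ∧ s' ≤ t' ∧ t' ≤ t ∧ f s' = l ∧ f t' = r ∧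
      ∀ x ∈ Icc s' t', l ≤ f x ∧ f x ≤ r := by
  -- first time hitting r
  have hc1 : IsCompact (Icc s t ∩ f ⁻¹' (Ici r)) := by
    apply IsCompact.of_isClosed_subset isCompact_Icc _ inter_subset_left
    exact hf.preimage_isClosed_of_isClosed isClosed_Icc isClosed_Ici
  have hne1 : (Icc s t ∩ f ⁻¹' (Ici r)).Nonempty := ⟨t, ⟨hst, le_rfl⟩, hr⟩
  obtain ⟨t', ⟨⟨ht's, ht't⟩, hft'⟩, hleast⟩ := hc1.exists_isLeast hne1
  have hft'r : f t' = r := by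
    have hcont : ContinuousOn f (Icc s t') := hf.mono (Icc_subset_Icc_right ht't)
    have := intermediate_value_Icc ht's hcont
    obtain ⟨x, ⟨hx1, hx2⟩, hx3⟩ := this ⟨hl.trans hlr, hft'⟩
    have hx4 : t' ≤ x := hleast ⟨⟨hx1, hx2.trans ht't⟩, by simp [hx3]⟩
    have : x = t' := le_antisymm hx2 hx4
    rw [← this]; exact hx3
  have hlt : ∀ x ∈ Icc s t', f x ≤ r := by
    intro x hx
    by_contra hcon
    push Not at hcon
    have : t' ≤ x := hleast ⟨⟨hx.1, hx.2.trans ht't⟩, hcon.le⟩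
    have h2 : x = t' := le_antisymm hx.2 this
    rw [h2, hft'r] at hcon
    exact lt_irrefl _ hcon
  have hf' : ContinuousOn f (Icc s t') := hf.mono (Icc_subset_Icc_right ht't)
  have hc2 : IsCompact (Icc s t' ∩ f ⁻¹' (Iic l)) := by
    apply IsCompact.of_isClosed_subset isCompact_Icc _ inter_subset_left
    exact hf'.preimage_isClosed_of_isClosed isClosed_Icc isClosed_Iic
  have hne2 : (Icc s t' ∩ f ⁻¹' (Iic l)).Nonempty := ⟨s, ⟨le_rfl, ht's⟩, hl⟩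
  obtain ⟨s', ⟨⟨hs's, hs't⟩, hfs'⟩, hgreat⟩ := hc2.exists_isGreatest hne2
  have hfs'l : f s' = l := by
    have hcont : ContinuousOn f (Icc s' t') := hf'.mono (Icc_subset_Icc_left hs's)
    have := intermediate_value_Icc hs't hcont
    obtain ⟨x, ⟨hx1, hx2⟩, hx3⟩ := this ⟨hfs', by rw [hft'r]; exact hlr⟩
    have hx4 : x ≤ s' := hgreat ⟨⟨hs's.trans hx1, hx2⟩, by simp [hx3]⟩
    have : x = s' := le_antisymm hx4 hx1
    rw [← this]; exact hx3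
  refine ⟨s', t', hs's, hs't, ht't, hfs'l, hft'r, fun x hx => ⟨?_, hlt x ⟨hs's.trans hx.1, hx.2⟩⟩⟩
  by_contra hcon
  push Not at hcon
  have : x ≤ s' := hgreat ⟨⟨hs's.trans hx.1, hx.2⟩, hcon.le⟩
  have h2 : x = s' := le_antisymm this hx.1
  rw [h2, hfs'l] at hcon
  exact lt_irrefl _ hcon

/-- The piecewise linear model. -/
noncomputable def T (p q r : ℝ) : ℝ := min 1 r - min (p - 22 / 25) q

/-- `x` follows the model up to an error `1/10000` as long as it is in `[0,2]`. -/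
def Close (x : ℕ → ℝ) : Prop :=
  ∀ n, 0 ≤ x n → x n ≤ 2 → 0 ≤ x (n + 1) → x (n + 1) ≤ 2 → 0 ≤ x (n + 2) → x (n + 2) ≤ 2 →
    |x (n + 3) - T (x (n + 2)) (x (n + 1)) (x n)| ≤ 1 / 10000

/-- Left end of the interval with symbol `b`. -/
noncomputable def lo (b : Bool) : ℝ := if b then 117 / 1000 else 175 / 1000
/-- Right end of the interval with symbol `b`. -/
noncomputable def hi (b : Bool) : ℝ := if b then 137 / 1000 else 195 / 1000
/-- Return time. -/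
def rt (b : Bool) : ℕ := if b then 11 else 8

/-- The state at time `n` is in the box with symbol `b`. -/
def InN (b : Bool) (x : ℕ → ℝ) (n : ℕ) : Prop :=
  (104 / 100 ≤ x n ∧ x n ≤ 14 / 10) ∧ (lo b ≤ x (n + 1) ∧ x (n + 1) ≤ hi b) ∧
    (12 / 10 ≤ x (n + 2) ∧ x (n + 2) ≤ 16 / 10)

/-- step of type A: `r ≤ 1`, `p - b ≤ q`. -/
theorem stepA {x : ℕ → ℝ} (hx : Close x) (n : ℕ) (h0 : 0 ≤ x n) (h1 : x n ≤ 1)
    (h2 : 0 ≤ x (n + 1)) (h3 : x (n + 1) ≤ 2) (h4 : 0 ≤ x (n + 2)) (h5 : x (n + 2) ≤ 2)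
    (h6 : x (n + 2) - 22 / 25 ≤ x (n + 1)) :
    x n - x (n + 2) + 22 / 25 - 1 / 10000 ≤ x (n + 3) ∧
      x (n + 3) ≤ x n - x (n + 2) + 22 / 25 + 1 / 10000 := by
  have := hx n h0 (by linarith) h2 h3 h4 h5
  rw [T, min_eq_right h1, min_eq_left h6, abs_le] at this
  constructor <;> linarith [this.1, this.2]

/-- step of type B: `r ≥ 1`, `p - b ≤ q`. -/
theorem stepB {x : ℕ → ℝ} (hx : Close x) (n : ℕ) (h0 : 1 ≤ x n) (h1 : x n ≤ 2)
    (h2 : 0 ≤ x (n + 1)) (h3 : x (n + 1) ≤ 2) (h4 : 0 ≤ x (n + 2)) (h5 : x (n + 2) ≤ 2)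
    (h6 : x (n + 2) - 22 / 25 ≤ x (n + 1)) :
    47 / 25 - x (n + 2) - 1 / 10000 ≤ x (n + 3) ∧
      x (n + 3) ≤ 47 / 25 - x (n + 2) + 1 / 10000 := by
  have := hx n (by linarith) h1 h2 h3 h4 h5
  rw [T, min_eq_left h0, min_eq_left h6, abs_le] at this
  constructor <;> linarith [this.1, this.2]

/-- step of type C: `r ≤ 1`, `p - b ≥ q`. -/
theorem stepC {x : ℕ → ℝ} (hx : Close x) (n : ℕ) (h0 : 0 ≤ x n) (h1 : x n ≤ 1)
    (h2 : 0 ≤ x (n + 1)) (h3 : x (n + 1) ≤ 2) (h4 : 0 ≤ x (n + 2)) (h5 : x (n + 2) ≤ 2)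
    (h6 : x (n + 1) ≤ x (n + 2) - 22 / 25) :
    x n - x (n + 1) - 1 / 10000 ≤ x (n + 3) ∧
      x (n + 3) ≤ x n - x (n + 1) + 1 / 10000 := by
  have := hx n h0 (by linarith) h2 h3 h4 h5
  rw [T, min_eq_right h1, min_eq_right h6, abs_le] at this
  constructor <;> linarith [this.1, this.2]

/-- step of type D: `r ≥ 1`, `p - b ≥ q`. -/
theorem stepD {x : ℕ → ℝ} (hx : Close x) (n : ℕ) (h0 : 1 ≤ x n) (h1 : x n ≤ 2)
    (h2 : 0 ≤ x (n + 1)) (h3 : x (n + 1) ≤ 2) (h4 : 0 ≤ x (n + 2)) (h5 : x (n + 2) ≤ 2)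
    (h6 : x (n + 1) ≤ x (n + 2) - 22 / 25) :
    1 - x (n + 1) - 1 / 10000 ≤ x (n + 3) ∧
      x (n + 3) ≤ 1 - x (n + 1) + 1 / 10000 := by
  have := hx n (by linarith) h1 h2 h3 h4 h5
  rw [T, min_eq_left h0, min_eq_right h6, abs_le] at this
  constructor <;> linarith [this.1, this.2]

/-- The first six steps, common to both words. -/
theorem six {x : ℕ → ℝ} (hx : Close x) (n : ℕ)
    (hR : 104 / 100 ≤ x n ∧ x n ≤ 14 / 10) (hq : 117 / 1000 ≤ x (n + 1) ∧ x (n + 1) ≤ 195 / 1000)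
    (hP : 12 / 10 ≤ x (n + 2) ∧ x (n + 2) ≤ 16 / 10) :
    (1 - x (n + 1) - 1 / 10000 ≤ x (n + 3) ∧ x (n + 3) ≤ 1 - x (n + 1) + 1 / 10000) ∧
    (2 * x (n + 1) - 12 / 100 - 2 / 10000 ≤ x (n + 4) ∧
      x (n + 4) ≤ 2 * x (n + 1) - 12 / 100 + 2 / 10000) ∧
    (2 - 2 * x (n + 1) - 3 / 10000 ≤ x (n + 5) ∧ x (n + 5) ≤ 2 - 2 * x (n + 1) + 3 / 10000) ∧
    (112 / 100 - 3 * x (n + 1) - 4 / 10000 ≤ x (n + 6) ∧
      x (n + 6) ≤ 112 / 100 - 3 * x (n + 1) + 4 / 10000) ∧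
    (5 * x (n + 1) - 36 / 100 - 7 / 10000 ≤ x (n + 7) ∧
      x (n + 7) ≤ 5 * x (n + 1) - 36 / 100 + 7 / 10000) ∧
    (224 / 100 - 5 * x (n + 1) - 8 / 10000 ≤ x (n + 8) ∧
      x (n + 8) ≤ 224 / 100 - 5 * x (n + 1) + 8 / 10000) := by
  obtain ⟨hR1, hR2⟩ := hR
  obtain ⟨hq1, hq2⟩ := hq
  obtain ⟨hP1, hP2⟩ := hP
  have a1 := stepD hx n (by linarith) (by linarith) (by linarith) (by linarith) (by linarith)
    (by linarith) (by linarith)
  obtain ⟨a1l, a1u⟩ := a1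
  have a2 := stepA hx (n + 1) (by linarith) (by linarith) (by linarith) (by linarith)
    (show 0 ≤ x (n + 1 + 2) by linarith [show x (n + 1 + 2) = x (n + 3) from rfl])
    (show x (n + 1 + 2) ≤ 2 by linarith [show x (n + 1 + 2) = x (n + 3) from rfl])
    (show x (n + 1 + 2) - 22 / 25 ≤ x (n + 1 + 1) by
      linarith [show x (n + 1 + 2) = x (n + 3) from rfl, show x (n + 1 + 1) = x (n + 2) from rfl])
  simp only [show n + 1 + 1 = n + 2 from rfl, show n + 1 + 2 = n + 3 from rfl,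
    show n + 1 + 3 = n + 4 from rfl] at a2
  obtain ⟨a2l, a2u⟩ := a2
  have a3 := stepB hx (n + 2) (by linarith) (by linarith)
    (show 0 ≤ x (n + 3) by linarith) (show x (n + 3) ≤ 2 by linarith)
    (show 0 ≤ x (n + 4) by linarith) (show x (n + 4) ≤ 2 by linarith)
    (show x (n + 4) - 22 / 25 ≤ x (n + 3) by linarith)
  simp only [show n + 2 + 1 = n + 3 from rfl, show n + 2 + 2 = n + 4 from rfl,
    show n + 2 + 3 = n + 5 from rfl] at a3
  obtain ⟨a3l, a3u⟩ := a3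
  have a4 := stepC hx (n + 3) (show 0 ≤ x (n + 3) by linarith) (show x (n + 3) ≤ 1 by linarith)
    (show 0 ≤ x (n + 4) by linarith) (show x (n + 4) ≤ 2 by linarith)
    (show 0 ≤ x (n + 5) by linarith) (show x (n + 5) ≤ 2 by linarith)
    (show x (n + 4) ≤ x (n + 5) - 22 / 25 by linarith)
  simp only [show n + 3 + 1 = n + 4 from rfl, show n + 3 + 2 = n + 5 from rfl,
    show n + 3 + 3 = n + 6 from rfl] at a4
  obtain ⟨a4l, a4u⟩ := a4
  have a5 := stepA hx (n + 4) (show 0 ≤ x (n + 4) by linarith) (show x (n + 4) ≤ 1 by linarith)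
    (show 0 ≤ x (n + 5) by linarith) (show x (n + 5) ≤ 2 by linarith)
    (show 0 ≤ x (n + 6) by linarith) (show x (n + 6) ≤ 2 by linarith)
    (show x (n + 6) - 22 / 25 ≤ x (n + 5) by linarith)
  simp only [show n + 4 + 1 = n + 5 from rfl, show n + 4 + 2 = n + 6 from rfl,
    show n + 4 + 3 = n + 7 from rfl] at a5
  obtain ⟨a5l, a5u⟩ := a5
  have a6 := stepB hx (n + 5) (show 1 ≤ x (n + 5) by linarith) (show x (n + 5) ≤ 2 by linarith)
    (show 0 ≤ x (n + 6) by linarith) (show x (n + 6) ≤ 2 by linarith)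
    (show 0 ≤ x (n + 7) by linarith) (show x (n + 7) ≤ 2 by linarith)
    (show x (n + 7) - 22 / 25 ≤ x (n + 6) by linarith)
  simp only [show n + 5 + 1 = n + 6 from rfl, show n + 5 + 2 = n + 7 from rfl,
    show n + 5 + 3 = n + 8 from rfl] at a6
  obtain ⟨a6l, a6u⟩ := a6
  refine ⟨⟨?_, ?_⟩, ⟨?_, ?_⟩, ⟨?_, ?_⟩, ⟨?_, ?_⟩, ⟨?_, ?_⟩, ⟨?_, ?_⟩⟩ <;> linarith

/-- Word of length 8 (symbol `false`). -/
theorem word8 {x : ℕ → ℝ} (hx : Close x) (n : ℕ) (h : InN false x n) :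
    (∀ i ≤ 10, 0 ≤ x (n + i) ∧ x (n + i) ≤ 2) ∧
    (2 * x (n + 1) - 24 / 100 - 13 / 10000 ≤ x (n + 9) ∧
      x (n + 9) ≤ 2 * x (n + 1) - 24 / 100 + 13 / 10000) ∧
    (104 / 100 ≤ x (n + 8) ∧ x (n + 8) ≤ 14 / 10) ∧
    (12 / 10 ≤ x (n + 10) ∧ x (n + 10) ≤ 16 / 10) := by
  obtain ⟨hR, hq, hP⟩ := h
  simp only [lo, hi, Bool.false_eq_true, if_false] at hq
  obtain ⟨⟨a1l, a1u⟩, ⟨a2l, a2u⟩, ⟨a3l, a3u⟩, ⟨a4l, a4u⟩, ⟨a5l, a5u⟩, ⟨a6l, a6u⟩⟩ :=
    six hx n hR ⟨by linarith [hq.1], hq.2⟩ hP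
  obtain ⟨hR1, hR2⟩ := hR
  obtain ⟨hq1, hq2⟩ := hq
  obtain ⟨hP1, hP2⟩ := hP
  have a7 := stepA hx (n + 6) (show 0 ≤ x (n + 6) by linarith) (show x (n + 6) ≤ 1 by linarith)
    (show 0 ≤ x (n + 7) by linarith) (show x (n + 7) ≤ 2 by linarith)
    (show 0 ≤ x (n + 8) by linarith) (show x (n + 8) ≤ 2 by linarith)
    (show x (n + 8) - 22 / 25 ≤ x (n + 7) by linarith)
  simp only [show n + 6 + 1 = n + 7 from rfl, show n + 6 + 2 = n + 8 from rfl,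
    show n + 6 + 3 = n + 9 from rfl] at a7
  obtain ⟨a7l, a7u⟩ := a7
  have a8 := stepA hx (n + 7) (show 0 ≤ x (n + 7) by linarith) (show x (n + 7) ≤ 1 by linarith)
    (show 0 ≤ x (n + 8) by linarith) (show x (n + 8) ≤ 2 by linarith)
    (show 0 ≤ x (n + 9) by linarith) (show x (n + 9) ≤ 2 by linarith)
    (show x (n + 9) - 22 / 25 ≤ x (n + 8) by linarith)
  simp only [show n + 7 + 1 = n + 8 from rfl, show n + 7 + 2 = n + 9 from rfl,
    show n + 7 + 3 = n + 10 from rfl] at a8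
  obtain ⟨a8l, a8u⟩ := a8
  refine ⟨?_, ⟨by linarith, by linarith⟩, ⟨by linarith, by linarith⟩, ⟨by linarith, by linarith⟩⟩
  intro i hi
  interval_cases i
  all_goals (constructor <;> (try simp only [Nat.add_zero]) <;> linarith)

/-- Word of length 11 (symbol `true`). -/
theorem word11 {x : ℕ → ℝ} (hx : Close x) (n : ℕ) (h : InN true x n) :
    (∀ i ≤ 13, 0 ≤ x (n + i) ∧ x (n + i) ≤ 2) ∧
    (5 * x (n + 1) - 48 / 100 - 34 / 10000 ≤ x (n + 12) ∧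
      x (n + 12) ≤ 5 * x (n + 1) - 48 / 100 + 34 / 10000) ∧
    (104 / 100 ≤ x (n + 11) ∧ x (n + 11) ≤ 14 / 10) ∧
    (12 / 10 ≤ x (n + 13) ∧ x (n + 13) ≤ 16 / 10) := by
  obtain ⟨hR, hq, hP⟩ := h
  simp only [lo, hi, if_true] at hq
  obtain ⟨⟨a1l, a1u⟩, ⟨a2l, a2u⟩, ⟨a3l, a3u⟩, ⟨a4l, a4u⟩, ⟨a5l, a5u⟩, ⟨a6l, a6u⟩⟩ :=
    six hx n hR ⟨hq.1, by linarith [hq.2]⟩ hP
  obtain ⟨hR1, hR2⟩ := hR
  obtain ⟨hq1, hq2⟩ := hq
  obtain ⟨hP1, hP2⟩ := hP
  -- y7 = x4 - x5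
  have a7 := stepC hx (n + 6) (show 0 ≤ x (n + 6) by linarith) (show x (n + 6) ≤ 1 by linarith)
    (show 0 ≤ x (n + 7) by linarith) (show x (n + 7) ≤ 2 by linarith)
    (show 0 ≤ x (n + 8) by linarith) (show x (n + 8) ≤ 2 by linarith)
    (show x (n + 7) ≤ x (n + 8) - 22 / 25 by linarith)
  simp only [show n + 6 + 1 = n + 7 from rfl, show n + 6 + 2 = n + 8 from rfl,
    show n + 6 + 3 = n + 9 from rfl] at a7
  obtain ⟨a7l, a7u⟩ := a7
  -- y8 = x5 - y7 + b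
  have a8 := stepA hx (n + 7) (show 0 ≤ x (n + 7) by linarith) (show x (n + 7) ≤ 1 by linarith)
    (show 0 ≤ x (n + 8) by linarith) (show x (n + 8) ≤ 2 by linarith)
    (show 0 ≤ x (n + 9) by linarith) (show x (n + 9) ≤ 2 by linarith)
    (show x (n + 9) - 22 / 25 ≤ x (n + 8) by linarith)
  simp only [show n + 7 + 1 = n + 8 from rfl, show n + 7 + 2 = n + 9 from rfl,
    show n + 7 + 3 = n + 10 from rfl] at a8
  obtain ⟨a8l, a8u⟩ := a8
  -- y9 = 1 + b - y8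
  have a9 := stepB hx (n + 8) (show 1 ≤ x (n + 8) by linarith) (show x (n + 8) ≤ 2 by linarith)
    (show 0 ≤ x (n + 9) by linarith) (show x (n + 9) ≤ 2 by linarith)
    (show 0 ≤ x (n + 10) by linarith) (show x (n + 10) ≤ 2 by linarith)
    (show x (n + 10) - 22 / 25 ≤ x (n + 9) by linarith)
  simp only [show n + 8 + 1 = n + 9 from rfl, show n + 8 + 2 = n + 10 from rfl,
    show n + 8 + 3 = n + 11 from rfl] at a9
  obtain ⟨a9l, a9u⟩ := a9
  -- y10 = y7 - y9 + b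
  have a10 := stepA hx (n + 9) (show 0 ≤ x (n + 9) by linarith) (show x (n + 9) ≤ 1 by linarith)
    (show 0 ≤ x (n + 10) by linarith) (show x (n + 10) ≤ 2 by linarith)
    (show 0 ≤ x (n + 11) by linarith) (show x (n + 11) ≤ 2 by linarith)
    (show x (n + 11) - 22 / 25 ≤ x (n + 10) by linarith)
  simp only [show n + 9 + 1 = n + 10 from rfl, show n + 9 + 2 = n + 11 from rfl,
    show n + 9 + 3 = n + 12 from rfl] at a10
  obtain ⟨a10l, a10u⟩ := a10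
  -- y11 = y8 - y10 + b
  have a11 := stepA hx (n + 10) (show 0 ≤ x (n + 10) by linarith)
    (show x (n + 10) ≤ 1 by linarith)
    (show 0 ≤ x (n + 11) by linarith) (show x (n + 11) ≤ 2 by linarith)
    (show 0 ≤ x (n + 12) by linarith) (show x (n + 12) ≤ 2 by linarith)
    (show x (n + 12) - 22 / 25 ≤ x (n + 11) by linarith)
  simp only [show n + 10 + 1 = n + 11 from rfl, show n + 10 + 2 = n + 12 from rfl,
    show n + 10 + 3 = n + 13 from rfl] at a11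
  obtain ⟨a11l, a11u⟩ := a11
  refine ⟨?_, ⟨by linarith, by linarith⟩, ⟨by linarith, by linarith⟩, ⟨by linarith, by linarith⟩⟩
  intro i hi
  interval_cases i
  all_goals (constructor <;> (try simp only [Nat.add_zero]) <;> linarith)

end Pool.Agent.R195.HS
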