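import Mathlib
import Pool.Agent.R195.HS.Horse

namespace Pool.Agent.R195.HS

open Filter Topology Set

/-- The sequence generated by `G` from `12/10, τ, 14/10`. -/
noncomputable def sq (G : ℝ → ℝ → ℝ → ℝ) (τ : ℝ) : ℕ → ℝ
  | 0 => 12 / 10
  | 1 => τ
  | 2 => 14 / 10
  | (n + 3) => G (sq G τ (n + 2)) (sq G τ (n + 1)) (sq G τ n)

theorem sq_cont (G : ℝ → ℝ → ℝ → ℝ) (hG : Continuous (fun z : ℝ × ℝ × ℝ => G z.1 z.2.1 z.2.2))
    (n : ℕ) : Continuous (fun τ => sq G τ n) := by
  induction n using Nat.strong_induction_on with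
  | _ n ih =>
    match n, ih with
    | 0, _ => simp only [sq]; exact continuous_const
    | 1, _ => simp only [sq]; exact continuous_id
    | 2, _ => simp only [sq]; exact continuous_const
    | (k + 3), ih =>
      simp only [sq]
      exact hG.comp ((ih (k + 2) (by omega)).prodMk
        ((ih (k + 1) (by omega)).prodMk (ih k (by omega))))

/-- The times of passage. -/
def tm (b : ℕ → Bool) : ℕ → ℕ
  | 0 => 0
  | (k + 1) => tm b k + rt (b k)

/-- Inductive statement. -/
def Good (G : ℝ → ℝ → ℝ → ℝ) (b : ℕ → Bool) (k : ℕ) (s e : ℝ) : Prop :=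
  s ≤ e ∧ (∀ τ ∈ Icc s e, InN (b k) (sq G τ) (tm b k)) ∧
    sq G s (tm b k + 1) = lo (b k) ∧ sq G e (tm b k + 1) = hi (b k)

theorem good_zero (G : ℝ → ℝ → ℝ → ℝ) (b : ℕ → Bool) (hb : b 0 = true) :
    Good G b 0 (117 / 1000) (137 / 1000) := by
  refine ⟨by norm_num, fun τ hτ => ?_, ?_, ?_⟩
  · simp only [tm, InN, hb, sq, lo, hi, if_true]
    refine ⟨by norm_num, ⟨?_, ?_⟩, by norm_num⟩
    · exact hτ.1
    · exact hτ.2
  · simp [tm, hb, sq, lo]
  · simp [tm, hb, sq, hi]

theorem good_succ (G : ℝ → ℝ → ℝ → ℝ)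
    (hG : Continuous (fun z : ℝ × ℝ × ℝ => G z.1 z.2.1 z.2.2))
    (hclose : ∀ τ, Close (sq G τ)) (b : ℕ → Bool)
    (hb : ∀ k, b k = false → b (k + 1) = true) (k : ℕ) (s e : ℝ) (h : Good G b k s e) :
    ∃ s' e', s ≤ s' ∧ e' ≤ e ∧ Good G b (k + 1) s' e' := by
  obtain ⟨hse, hin, hs, he⟩ := h
  -- the function tau -> q'
  have hcont : ContinuousOn (fun τ => sq G τ (tm b (k + 1) + 1)) (Icc s e) :=
    (sq_cont G hG _).continuousOn
  have key : sq G s (tm b (k + 1) + 1) ≤ lo (b (k + 1)) ∧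
      hi (b (k + 1)) ≤ sq G e (tm b (k + 1) + 1) ∧
      ∀ τ ∈ Icc s e, (lo (b (k + 1)) ≤ sq G τ (tm b (k + 1) + 1) ∧
        sq G τ (tm b (k + 1) + 1) ≤ hi (b (k + 1))) →
          InN (b (k + 1)) (sq G τ) (tm b (k + 1)) := by
    cases hbk : b k with
    | false =>
      have hb1 := hb k hbk
      have htm : tm b (k + 1) = tm b k + 8 := by simp [tm, rt, hbk]
      rw [htm, hb1]
      rw [hbk] at hin hs he
      simp only [lo, hi, if_true, Bool.false_eq_true, if_false] at hs he ⊢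
      refine ⟨?_, ?_, ?_⟩
      · obtain ⟨_, ⟨_, hu⟩, _⟩ := word8 (hclose s) _ (hin s ⟨le_rfl, hse⟩)
        rw [show tm b k + 8 + 1 = tm b k + 9 from rfl]
        rw [hs] at hu
        linarith
      · obtain ⟨_, ⟨hl, _⟩, _⟩ := word8 (hclose e) _ (hin e ⟨hse, le_rfl⟩)
        rw [show tm b k + 8 + 1 = tm b k + 9 from rfl]
        rw [he] at hl
        linarith
      · intro τ hτ hq
        obtain ⟨_, _, hR, hP⟩ := word8 (hclose τ) _ (hin τ hτ)
        exact ⟨hR, by simp only [lo, hi, if_true]; exact hq, hP⟩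
    | true =>
      have htm : tm b (k + 1) = tm b k + 11 := by simp [tm, rt, hbk]
      rw [htm]
      rw [hbk] at hin hs he
      simp only [lo, hi, if_true] at hs he
      have hlo : lo (b (k + 1)) ≤ 175 / 1000 ∧ 117 / 1000 ≤ lo (b (k + 1)) := by
        cases b (k + 1) <;> simp [lo] <;> norm_num
      have hhi : hi (b (k + 1)) ≤ 195 / 1000 := by
        cases b (k + 1) <;> simp [hi] <;> norm_num
      refine ⟨?_, ?_, ?_⟩
      · obtain ⟨_, ⟨_, hu⟩, _⟩ := word11 (hclose s) _ (hin s ⟨le_rfl, hse⟩)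
        rw [show tm b k + 11 + 1 = tm b k + 12 from rfl]
        rw [hs] at hu
        linarith [hlo.2]
      · obtain ⟨_, ⟨hl, _⟩, _⟩ := word11 (hclose e) _ (hin e ⟨hse, le_rfl⟩)
        rw [show tm b k + 11 + 1 = tm b k + 12 from rfl]
        rw [he] at hl
        linarith
      · intro τ hτ hq
        obtain ⟨_, _, hR, hP⟩ := word11 (hclose τ) _ (hin τ hτ)
        exact ⟨hR, hq, hP⟩
  obtain ⟨k1, k2, k3⟩ := key
  have hlh : lo (b (k + 1)) ≤ hi (b (k + 1)) := by
    cases b (k + 1) <;> simp [lo, hi] <;> norm_num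
  obtain ⟨s', e', h1, h2, h3, h4, h5, h6⟩ := subinterval _ s e _ _ hse hcont k1 k2 hlh
  refine ⟨s', e', h1, h3, h2, fun τ hτ => ?_, h4, h5⟩
  exact k3 τ ⟨h1.trans hτ.1, hτ.2.trans h3⟩ (h6 τ hτ)

/-- There is an orbit following the itinerary `b`. -/
theorem exists_orbit (G : ℝ → ℝ → ℝ → ℝ)
    (hG : Continuous (fun z : ℝ × ℝ × ℝ => G z.1 z.2.1 z.2.2))
    (hclose : ∀ τ, Close (sq G τ)) (b : ℕ → Bool) (hb0 : b 0 = true)
    (hb : ∀ k, b k = false → b (k + 1) = true) :
    ∃ τ, ∀ k, InN (b k) (sq G τ) (tm b k) := by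
  -- build the nested intervals
  have step : ∀ k, ∀ I : {I : ℝ × ℝ // Good G b k I.1 I.2},
      ∃ J : {J : ℝ × ℝ // Good G b (k + 1) J.1 J.2}, I.1.1 ≤ J.1.1 ∧ J.1.2 ≤ I.1.2 := by
    rintro k ⟨⟨s, e⟩, hI⟩
    obtain ⟨s', e', h1, h2, h3⟩ := good_succ G hG hclose b hb k s e hI
    exact ⟨⟨(s', e'), h3⟩, h1, h2⟩
  choose nxt hn1 hn2 using step
  let I : (k : ℕ) → {I : ℝ × ℝ // Good G b k I.1 I.2} :=
    fun k => Nat.rec ⟨(117 / 1000, 137 / 1000), good_zero G b hb0⟩ (fun k I => nxt k I) k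
  have hI1 : ∀ k, (I k).1.1 ≤ (I (k + 1)).1.1 := fun k => hn1 k (I k)
  have hI2 : ∀ k, (I (k + 1)).1.2 ≤ (I k).1.2 := fun k => hn2 k (I k)
  have hmono : Monotone (fun k => (I k).1.1) := monotone_nat_of_le_succ hI1
  have hanti : Antitone (fun k => (I k).1.2) := antitone_nat_of_succ_le hI2
  have hle : ∀ j k, (I j).1.1 ≤ (I k).1.2 := by
    intro j k
    calc (I j).1.1 ≤ (I (max j k)).1.1 := hmono (le_max_left _ _)
      _ ≤ (I (max j k)).1.2 := (I (max j k)).2.1
      _ ≤ (I k).1.2 := hanti (le_max_right _ _)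
  refine ⟨⨆ j, (I j).1.1, fun k => ?_⟩
  apply (I k).2.2.1
  constructor
  · exact le_ciSup (f := fun j => (I j).1.1) ⟨(I 0).1.2, by rintro _ ⟨j, rfl⟩; exact hle j 0⟩ k
  · exact ciSup_le (fun j => hle j k)

/-- Along such an orbit all terms are in `[0,2]`. -/
theorem orbit_bounded (x : ℕ → ℝ) (hx : Close x) (b : ℕ → Bool)
    (h : ∀ k, InN (b k) x (tm b k)) : ∀ n, 0 ≤ x n ∧ x n ≤ 2 := by
  have hblock : ∀ k, ∀ i ≤ 10, 0 ≤ x (tm b k + i) ∧ x (tm b k + i) ≤ 2 := by
    intro k i hi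
    have := h k
    cases hbk : b k with
    | false => rw [hbk] at this; exact (word8 hx _ this).1 i hi
    | true => rw [hbk] at this; exact (word11 hx _ this).1 i (by omega)
  intro n
  -- find k with tm k ≤ n < tm (k+1)
  have hgt : ∀ k, 8 * k ≤ tm b k := by
    intro k
    induction k with
    | zero => simp
    | succ k ih => simp only [tm, rt]; split_ifs <;> omega
  have hex : ∃ k, n < tm b (k + 1) := ⟨n, by have := hgt (n + 1); omega⟩
  classical
  obtain ⟨k, hk, hmin⟩ : ∃ k, n < tm b (k + 1) ∧ tm b k ≤ n := by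
    refine ⟨Nat.find hex, Nat.find_spec hex, ?_⟩
    by_contra hcon
    push Not at hcon
    have hpos : Nat.find hex ≠ 0 := by
      intro h0
      rw [h0] at hcon
      simp [tm] at hcon
    obtain ⟨j, hj⟩ := Nat.exists_eq_succ_of_ne_zero hpos
    have := Nat.find_min hex (m := j) (by omega)
    rw [hj] at hcon
    exact this hcon
  obtain ⟨i, rfl⟩ := Nat.exists_eq_add_of_le hmin
  apply hblock k i
  have : tm b (k + 1) ≤ tm b k + 11 := by simp only [tm, rt]; split_ifs <;> omega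
  omega

/-- The itinerary used: `false` exactly at the powers of two `2, 4, 8, ...`. -/
noncomputable def bb (k : ℕ) : Bool := by
  classical exact !decide (∃ m : ℕ, k = 2 ^ (m + 1))

theorem bb_false_iff (k : ℕ) : bb k = false ↔ ∃ m : ℕ, k = 2 ^ (m + 1) := by
  classical
  simp [bb]

theorem bb_zero : bb 0 = true := by
  by_contra h
  have h' : bb 0 = false := by simpa using h
  rw [bb_false_iff] at h'
  obtain ⟨m, hm⟩ := h'
  have : 0 < 2 ^ (m + 1) := by positivity
  omega

theorem bb_succ (k : ℕ) (h : bb k = false) : bb (k + 1) = true := by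
  by_contra h2
  have h' : bb (k + 1) = false := by simpa using h2
  rw [bb_false_iff] at h h'
  obtain ⟨m, hm⟩ := h
  obtain ⟨m', hm'⟩ := h'
  rw [pow_succ] at hm hm'
  omega

/-- `bb` is not eventually periodic. -/
theorem bb_not_periodic (j π : ℕ) (hπ : 1 ≤ π) : ¬ ∀ k ≥ j, bb (k + π) = bb k := by
  intro h
  have hlt : max j π < 2 ^ (max j π + 1) :=
    lt_trans (Nat.lt_succ_self _) Nat.lt_two_pow_self
  set M := max j π with hM
  have h1 : bb (2 ^ (M + 1)) = false := (bb_false_iff _).2 ⟨M, rfl⟩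
  have h2 := h (2 ^ (M + 1)) (by have := le_max_left j π; omega)
  rw [h1, bb_false_iff] at h2
  obtain ⟨m, hm⟩ := h2
  have hπM : π ≤ M := le_max_right _ _
  have h3 : M + 1 < m + 1 := by
    by_contra hcon
    push Not at hcon
    have : 2 ^ (m + 1) ≤ 2 ^ (M + 1) := Nat.pow_le_pow_right (by norm_num) hcon
    omega
  have h4 : 2 ^ (M + 2) ≤ 2 ^ (m + 1) := Nat.pow_le_pow_right (by norm_num) (by omega)
  rw [pow_succ 2 (M + 1)] at h4
  omega

/-- A sequence whose itinerary is `bb` is not asymptotic to any periodic sequence. -/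
theorem not_asymptotic (y : ℕ → ℝ) (θ ε : ℝ) (hε : 0 < ε)
    (h1 : ∀ k, bb k = true → θ + ε ≤ y (tm bb k + 1))
    (h0 : ∀ k, bb k = false → y (tm bb k + 1) ≤ θ - ε)
    (p : ℕ → ℝ) (P : ℕ) (hP : 1 ≤ P) (hper : ∀ n, p (n + P) = p n) :
    ¬ Tendsto (fun n => y n - p n) atTop (𝓝 0) := by
  intro ht
  have hev : ∀ᶠ n in atTop, |y n - p n| < ε := by
    have := (tendsto_order.1 (ht.abs)).2 ε (by simpa using hε)
    simpa using this
  obtain ⟨N, hN⟩ := eventually_atTop.1 hev
  have hgt : ∀ k, 8 * k ≤ tm bb k := by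
    intro k
    induction k with
    | zero => simp
    | succ k ih => simp only [tm, rt]; split_ifs <;> omega
  have hpmod : ∀ n, p n = p (n % P) := by
    intro n
    have : ∀ m r, p (r + m * P) = p r := by
      intro m
      induction m with
      | zero => intro r; simp
      | succ m ih => intro r; rw [Nat.succ_mul, ← add_assoc, hper, ih]
    have h := this (n / P) (n % P)
    rw [mul_comm, Nat.mod_add_div] at h
    exact h
  -- symbol is determined by the residue
  have hsym : ∀ k ≥ N, (bb k = true ↔ θ < p ((tm bb k + 1) % P)) := by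
    intro k hk
    have hn := hN (tm bb k + 1) (by have := hgt k; omega)
    rw [hpmod (tm bb k + 1), abs_lt] at hn
    constructor
    · intro hb
      have := h1 k hb
      linarith [hn.2]
    · intro hp
      by_contra hb
      have hb' : bb k = false := by simpa using hb
      have := h0 k hb'
      linarith [hn.1]
  -- pigeonhole
  obtain ⟨i, j, hij, hmod⟩ : ∃ i j : ℕ, i < j ∧
      (tm bb (N + i)) % P = (tm bb (N + j)) % P := by
    have hfin : ∃ i j : ℕ, i ≠ j ∧ (fun i => (⟨(tm bb (N + i)) % P, Nat.mod_lt _ (by omega)⟩ : Fin P)) i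
        = (fun i => (⟨(tm bb (N + i)) % P, Nat.mod_lt _ (by omega)⟩ : Fin P)) j :=
      Finite.exists_ne_map_eq_of_infinite _
    obtain ⟨i, j, hne, heq⟩ := hfin
    simp only [Fin.mk.injEq] at heq
    rcases lt_or_gt_of_ne hne with h | h
    · exact ⟨i, j, h, heq⟩
    · exact ⟨j, i, h, heq.symm⟩
  have hall : ∀ l, (tm bb (N + i + l)) % P = (tm bb (N + j + l)) % P ∧
      bb (N + i + l) = bb (N + j + l) := by
    intro l
    have hb_of : ∀ l, (tm bb (N + i + l)) % P = (tm bb (N + j + l)) % P →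
        bb (N + i + l) = bb (N + j + l) := by
      intro l hl
      have e1 := hsym (N + i + l) (by omega)
      have e2 := hsym (N + j + l) (by omega)
      have e3 : (tm bb (N + i + l) + 1) % P = (tm bb (N + j + l) + 1) % P := by
        rw [Nat.add_mod, hl, ← Nat.add_mod]
      rw [e3] at e1
      have := e1.trans e2.symm
      cases h1 : bb (N + i + l) <;> cases h2 : bb (N + j + l) <;> simp_all
    induction l with
    | zero => exact ⟨hmod, hb_of 0 hmod⟩
    | succ l ih =>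
      have : (tm bb (N + i + (l + 1))) % P = (tm bb (N + j + (l + 1))) % P := by
        rw [show N + i + (l + 1) = (N + i + l) + 1 by ring,
          show N + j + (l + 1) = (N + j + l) + 1 by ring]
        simp only [tm]
        rw [Nat.add_mod, ih.1, ih.2, ← Nat.add_mod]
      exact ⟨this, hb_of (l + 1) this⟩
  apply bb_not_periodic (N + i) (j - i) (by omega)
  intro k hk
  obtain ⟨l, rfl⟩ := Nat.exists_eq_add_of_le hk
  have := (hall l).2
  rw [show N + i + l + (j - i) = N + j + l by omega]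
  exact this.symm

end Pool.Agent.R195.HS
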