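import Mathlib
import Pool.Agent.R195.HS.Orbit

namespace Pool.Agent.R195.HS

open Filter Topology Set Real

/-- The large constant. -/
noncomputable def LL : ℝ := 20000

theorem log_four_le : Real.log 4 ≤ 2 := by
  have : Real.log 4 = 2 * Real.log 2 := by
    rw [show (4 : ℝ) = 2 ^ 2 by norm_num, Real.log_pow]; norm_num
  rw [this]
  have := Real.log_two_lt_d9
  linarith

/-- The right hand side of the recurrence. -/
noncomputable def rhs (β γ A D u v w : ℝ) : ℝ :=
  (exp (-LL) + β * u + γ * v + w) / (A + exp (22 / 25 * LL) * u + v + D * w)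

/-- In logarithmic coordinates. -/
noncomputable def GG (β γ A D p q r : ℝ) : ℝ :=
  -(1 / LL) * Real.log (rhs β γ A D (exp (-LL * p)) (exp (-LL * q)) (exp (-LL * r)))

theorem num_pos {β γ u v w : ℝ} (hβ : 0 ≤ β) (hγ : 0 ≤ γ) (hu : 0 < u) (hv : 0 < v) (hw : 0 < w) :
    0 < exp (-LL) + β * u + γ * v + w := by positivity

theorem den_pos {A D u v w : ℝ} (hA : 0 ≤ A) (hD : 0 ≤ D) (hu : 0 < u) (hv : 0 < v) (hw : 0 < w) :
    0 < A + exp (22 / 25 * LL) * u + v + D * w := by positivity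

theorem rhs_pos {β γ A D u v w : ℝ} (hβ : 0 ≤ β) (hγ : 0 ≤ γ) (hA : 0 ≤ A) (hD : 0 ≤ D)
    (hu : 0 < u) (hv : 0 < v) (hw : 0 < w) : 0 < rhs β γ A D u v w :=
  div_pos (num_pos hβ hγ hu hv hw) (den_pos hA hD hu hv hw)

theorem LL_pos : 0 < LL := by unfold LL; norm_num

theorem exp_GG {β γ A D : ℝ} (hβ : 0 ≤ β) (hγ : 0 ≤ γ) (hA : 0 ≤ A) (hD : 0 ≤ D) (p q r : ℝ) :
    exp (-LL * GG β γ A D p q r) =
      rhs β γ A D (exp (-LL * p)) (exp (-LL * q)) (exp (-LL * r)) := by
  have h := rhs_pos hβ hγ hA hD (exp_pos (-LL * p)) (exp_pos (-LL * q)) (exp_pos (-LL * r))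
  have : -LL * GG β γ A D p q r
      = Real.log (rhs β γ A D (exp (-LL * p)) (exp (-LL * q)) (exp (-LL * r))) := by
    unfold GG
    have := LL_pos
    field_simp
  rw [this, exp_log h]

theorem GG_cont {β γ A D : ℝ} (hβ : 0 ≤ β) (hγ : 0 ≤ γ) (hA : 0 ≤ A) (hD : 0 ≤ D) :
    Continuous (fun z : ℝ × ℝ × ℝ => GG β γ A D z.1 z.2.1 z.2.2) := by
  unfold GG
  apply Continuous.mul continuous_const
  apply Continuous.log
  · unfold rhs
    apply Continuous.div
    · fun_prop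
    · fun_prop
    · intro z
      exact (den_pos hA hD (exp_pos _) (exp_pos _) (exp_pos _)).ne'
  · intro z
    exact (rhs_pos hβ hγ hA hD (exp_pos _) (exp_pos _) (exp_pos _)).ne'

theorem GG_close {β γ A D : ℝ} (hβ : 0 ≤ β) (hγ : 0 ≤ γ) (hA : 0 ≤ A) (hD : 0 ≤ D)
    (hβ1 : β ≤ exp (-(10 * LL))) (hγ1 : γ ≤ exp (-(10 * LL))) (hA1 : A ≤ exp (-(10 * LL)))
    (hD1 : D ≤ exp (-(10 * LL))) (p q r : ℝ) (hp : 0 ≤ p ∧ p ≤ 2) (hq : 0 ≤ q ∧ q ≤ 2)
    (hr : 0 ≤ r ∧ r ≤ 2) : |GG β γ A D p q r - T p q r| ≤ 1 / 10000 := by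
  have hL := LL_pos
  set m1 := min 1 r with hm1
  set m2 := min (p - 22 / 25) q with hm2
  have hexp1 : ∀ t : ℝ, 0 ≤ t → exp (-LL * t) ≤ 1 := by
    intro t ht
    rw [exp_le_one_iff]; nlinarith
  have hu1 := hexp1 p hp.1
  have hv1 := hexp1 q hq.1
  have hw1 := hexp1 r hr.1
  have hu0 := exp_pos (-LL * p)
  have hv0 := exp_pos (-LL * q)
  have hw0 := exp_pos (-LL * r)
  set u := exp (-LL * p) with hu
  set v := exp (-LL * q) with hv
  set w := exp (-LL * r) with hw
  -- numerator bounds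
  have n1 : exp (-LL) ≤ exp (-LL * m1) := by
    apply exp_le_exp.2
    have : m1 ≤ 1 := min_le_left _ _
    nlinarith
  have n2 : w ≤ exp (-LL * m1) := by
    apply exp_le_exp.2
    have : m1 ≤ r := min_le_right _ _
    nlinarith
  have n3 : β * u ≤ exp (-LL * m1) := by
    calc β * u ≤ exp (-(10 * LL)) * 1 := mul_le_mul hβ1 hu1 hu0.le (exp_pos _).le
      _ ≤ exp (-LL) := by rw [mul_one]; apply exp_le_exp.2; linarith
      _ ≤ _ := n1
  have n4 : γ * v ≤ exp (-LL * m1) := by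
    calc γ * v ≤ exp (-(10 * LL)) * 1 := mul_le_mul hγ1 hv1 hv0.le (exp_pos _).le
      _ ≤ exp (-LL) := by rw [mul_one]; apply exp_le_exp.2; linarith
      _ ≤ _ := n1
  have n5 : exp (-LL * m1) ≤ exp (-LL) + β * u + γ * v + w := by
    have hb : 0 ≤ β * u := by positivity
    have hc : 0 ≤ γ * v := by positivity
    rcases min_choice 1 r with h | h
    · rw [hm1, h, mul_one]; linarith
    · rw [hm1, h]; have := exp_pos (-LL); linarith
  have n6 : exp (-LL) + β * u + γ * v + w ≤ 4 * exp (-LL * m1) := by linarith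
  -- denominator bounds
  have hBu : exp (22 / 25 * LL) * u = exp (-LL * (p - 22 / 25)) := by
    rw [hu, ← exp_add]; congr 1; ring
  have d1 : exp (22 / 25 * LL) * u ≤ exp (-LL * m2) := by
    rw [hBu]
    apply exp_le_exp.2
    have : m2 ≤ p - 22 / 25 := min_le_left _ _
    nlinarith
  have d2 : v ≤ exp (-LL * m2) := by
    apply exp_le_exp.2
    have : m2 ≤ q := min_le_right _ _
    nlinarith
  have d0 : exp (-(10 * LL)) ≤ v := by
    apply exp_le_exp.2
    nlinarith [hq.2]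
  have d3 : A ≤ exp (-LL * m2) := hA1.trans (d0.trans d2)
  have d4 : D * w ≤ exp (-LL * m2) := by
    calc D * w ≤ exp (-(10 * LL)) * 1 := mul_le_mul hD1 hw1 hw0.le (exp_pos _).le
      _ = exp (-(10 * LL)) := mul_one _
      _ ≤ _ := d0.trans d2
  have d5 : exp (-LL * m2) ≤ A + exp (22 / 25 * LL) * u + v + D * w := by
    have hb : 0 ≤ D * w := by positivity
    rcases min_choice (p - 22 / 25) q with h | h
    · rw [hm2, h, ← hBu]; linarith
    · rw [hm2, h]
      have : 0 < exp (22 / 25 * LL) * u := by positivity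
      linarith
  have d6 : A + exp (22 / 25 * LL) * u + v + D * w ≤ 4 * exp (-LL * m2) := by linarith
  have hnp := num_pos hβ hγ hu0 hv0 hw0
  have hdp := den_pos hA hD hu0 hv0 hw0
  -- logs
  have l1 : -LL * m1 ≤ Real.log (exp (-LL) + β * u + γ * v + w) := by
    rw [← Real.log_exp (-LL * m1)]
    exact Real.log_le_log (exp_pos _) n5
  have l2 : Real.log (exp (-LL) + β * u + γ * v + w) ≤ 2 + -LL * m1 := by
    calc _ ≤ Real.log (4 * exp (-LL * m1)) := Real.log_le_log hnp n6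
      _ = Real.log 4 + -LL * m1 := by
        rw [Real.log_mul (by norm_num) (exp_pos _).ne', Real.log_exp]
      _ ≤ _ := by linarith [log_four_le]
  have l3 : -LL * m2 ≤ Real.log (A + exp (22 / 25 * LL) * u + v + D * w) := by
    rw [← Real.log_exp (-LL * m2)]
    exact Real.log_le_log (exp_pos _) d5
  have l4 : Real.log (A + exp (22 / 25 * LL) * u + v + D * w) ≤ 2 + -LL * m2 := by
    calc _ ≤ Real.log (4 * exp (-LL * m2)) := Real.log_le_log hdp d6
      _ = Real.log 4 + -LL * m2 := by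
        rw [Real.log_mul (by norm_num) (exp_pos _).ne', Real.log_exp]
      _ ≤ _ := by linarith [log_four_le]
  have hG : GG β γ A D p q r = -(1 / LL) * (Real.log (exp (-LL) + β * u + γ * v + w)
      - Real.log (A + exp (22 / 25 * LL) * u + v + D * w)) := by
    unfold GG rhs
    rw [Real.log_div hnp.ne' hdp.ne']
  set a := Real.log (exp (-LL) + β * u + γ * v + w)
  set c := Real.log (A + exp (22 / 25 * LL) * u + v + D * w)
  rw [hG, T, ← hm1, ← hm2]
  have hL2 : LL = 20000 := rfl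
  rw [hL2] at l1 l2 l3 l4 ⊢
  rw [abs_le]
  constructor <;> linarith

theorem Close_sq {β γ A D : ℝ} (hβ : 0 ≤ β) (hγ : 0 ≤ γ) (hA : 0 ≤ A) (hD : 0 ≤ D)
    (hβ1 : β ≤ exp (-(10 * LL))) (hγ1 : γ ≤ exp (-(10 * LL))) (hA1 : A ≤ exp (-(10 * LL)))
    (hD1 : D ≤ exp (-(10 * LL))) (τ : ℝ) : Close (sq (GG β γ A D) τ) := by
  intro n h1 h2 h3 h4 h5 h6
  exact GG_close hβ hγ hA hD hβ1 hγ1 hA1 hD1 _ _ _ ⟨h5, h6⟩ ⟨h3, h4⟩ ⟨h1, h2⟩

/-- Main theorem of this folder: for all `β, γ, A, D` in `[0, exp(-10 L)]` the recurrence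
`x_{n+3} = (exp(-L) + β x_{n+2} + γ x_{n+1} + x_n)/(A + exp(22 L/25) x_{n+2} + x_{n+1} + D x_n)`
has a solution with values in `[exp(-2L), 1]` which is not asymptotic to any periodic
sequence; even after multiplication by a positive constant. -/
theorem core {β γ A D : ℝ} (hβ : 0 ≤ β) (hγ : 0 ≤ γ) (hA : 0 ≤ A) (hD : 0 ≤ D)
    (hβ1 : β ≤ exp (-(10 * LL))) (hγ1 : γ ≤ exp (-(10 * LL))) (hA1 : A ≤ exp (-(10 * LL)))
    (hD1 : D ≤ exp (-(10 * LL))) :
    ∃ y : ℕ → ℝ, (∀ n, 0 < y n ∧ y n ≤ 1) ∧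
      (∀ n, y (n + 3) = (exp (-LL) + β * y (n + 2) + γ * y (n + 1) + y n) /
        (A + exp (22 / 25 * LL) * y (n + 2) + y (n + 1) + D * y n)) ∧
      ∀ c : ℝ, 0 < c → ∀ p : ℕ → ℝ, ∀ P : ℕ, 1 ≤ P → (∀ n, p (n + P) = p n) →
        ¬ Tendsto (fun n => c * y n - p n) atTop (𝓝 0) := by
  have hcl := Close_sq hβ hγ hA hD hβ1 hγ1 hA1 hD1
  obtain ⟨τ, hτ⟩ := exists_orbit (GG β γ A D) (GG_cont hβ hγ hA hD) hcl bb bb_zero bb_succ
  have hbd := orbit_bounded _ (hcl τ) bb hτ
  set x := sq (GG β γ A D) τ with hx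
  refine ⟨fun n => exp (-LL * x n), fun n => ⟨exp_pos _, ?_⟩, fun n => ?_, ?_⟩
  · rw [exp_le_one_iff]
    nlinarith [(hbd n).1, LL_pos]
  · have : x (n + 3) = GG β γ A D (x (n + 2)) (x (n + 1)) (x n) := by rw [hx]; rfl
    simp only
    rw [this, exp_GG hβ hγ hA hD]
    rfl
  · intro c hc p P hP hper
    have hLp := LL_pos
    -- separation
    have hlt : exp (-LL * (175 / 1000)) < exp (-LL * (137 / 1000)) := by
      apply exp_lt_exp.2; nlinarith
    set a := exp (-LL * (175 / 1000)) with ha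
    set d := exp (-LL * (137 / 1000)) with hd
    apply not_asymptotic (fun n => c * exp (-LL * x n)) (c * ((a + d) / 2)) (c * ((d - a) / 2))
      (by have : 0 < d - a := by linarith
          positivity) _ _ p P hP hper
    · intro k hk
      have := (hτ k).2.1.2
      rw [hk] at this
      simp only [hi, if_true] at this
      have h2 : d ≤ exp (-LL * x (tm bb k + 1)) := by
        rw [hd]; apply exp_le_exp.2; nlinarith
      have : c * ((a + d) / 2) + c * ((d - a) / 2) = c * d := by ring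
      rw [this]
      exact mul_le_mul_of_nonneg_left h2 hc.le
    · intro k hk
      have := (hτ k).2.1.1
      rw [hk] at this
      simp only [lo, Bool.false_eq_true, if_false] at this
      have h2 : exp (-LL * x (tm bb k + 1)) ≤ a := by
        rw [ha]; apply exp_le_exp.2; nlinarith
      have : c * ((a + d) / 2) - c * ((d - a) / 2) = c * a := by ring
      rw [this]
      exact mul_le_mul_of_nonneg_left h2 hc.le

end Pool.Agent.R195.HS
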